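import Pool.Agent.Helper24.GT.St.K0

namespace Helper24.GT

/-- Just below `c` there is no element of a finite set. -/
theorem R_gap (T : Finset ℝ) (c : ℝ) : ∃ s' < c, ∀ τ ∈ T, τ < c → τ < s' := by
  classical
  induction T using Finset.induction_on with
  | empty => exact ⟨c - 1, by linarith, by simp⟩
  | insert a T _ ih =>
    obtain ⟨s0, h1, h2⟩ := ih
    by_cases ha : a < c
    · refine ⟨max s0 ((a + c) / 2), max_lt h1 (by linarith), ?_⟩
      intro τ hτ hlt
      rcases Finset.mem_insert.1 hτ with rfl | hτ
      · exact lt_of_lt_of_le (by linarith) (le_max_right _ _)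
      · exact lt_of_lt_of_le (h2 τ hτ hlt) (le_max_left _ _)
    · refine ⟨s0, h1, ?_⟩
      intro τ hτ hlt
      rcases Finset.mem_insert.1 hτ with rfl | hτ
      · exact absurd hlt ha
      · exact h2 τ hτ hlt

/-- Critical value of a pair. -/
noncomputable def R_cr {V : Type*} (X W : V → ℝ) (u v : V) : ℝ := -((W v - W u) / (X v - X u))

theorem R_diff {V : Type*} {X W : V → ℝ} (hX : Function.Injective X) {u v : V} (h : u ≠ v)
    (s : ℝ) : (W v + s * X v) - (W u + s * X u) = (X v - X u) * (s - R_cr X W u v) := by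
  have h1 : X v - X u ≠ 0 := by
    intro h2
    exact h (hX (by linarith))
  unfold R_cr
  field_simp
  ring

theorem R_cr_symm {V : Type*} (X W : V → ℝ) (u v : V) : R_cr X W u v = R_cr X W v u := by
  unfold R_cr
  rw [← neg_sub (W u) (W v), ← neg_sub (X u) (X v), neg_div_neg_eq]

theorem R_lt_iff {V : Type*} {X W : V → ℝ} (hX : Function.Injective X) {u v : V} (h : u ≠ v)
    {s s' : ℝ} (hs : (R_cr X W u v < s ∧ R_cr X W u v < s') ∨
      (s < R_cr X W u v ∧ s' < R_cr X W u v)) :
    (W u + s * X u < W v + s * X v) ↔ (W u + s' * X u < W v + s' * X v) := by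
  have e1 := R_diff (W := W) hX h s
  have e2 := R_diff (W := W) hX h s'
  have q1 : (W u + s * X u < W v + s * X v) ↔ 0 < (X v - X u) * (s - R_cr X W u v) := by
    rw [← e1]; constructor <;> intro h <;> linarith
  have q2 : (W u + s' * X u < W v + s' * X v) ↔ 0 < (X v - X u) * (s' - R_cr X W u v) := by
    rw [← e2]; constructor <;> intro h <;> linarith
  rw [q1, q2]
  rcases hs with ⟨h1, h2⟩ | ⟨h1, h2⟩
  · rw [mul_pos_iff_of_pos_right (by linarith), mul_pos_iff_of_pos_right (by linarith)]
  · constructor
    · intro h3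
      have : X v - X u < 0 := by
        by_contra hc
        push Not at hc
        have := mul_nonpos_of_nonneg_of_nonpos hc (show s - R_cr X W u v ≤ 0 by linarith)
        linarith
      exact mul_pos_of_neg_of_neg this (by linarith)
    · intro h3
      have : X v - X u < 0 := by
        by_contra hc
        push Not at hc
        have := mul_nonpos_of_nonneg_of_nonpos hc (show s' - R_cr X W u v ≤ 0 by linarith)
        linarith
      exact mul_pos_of_neg_of_neg this (by linarith)

/-- For each vertex the critical values are distinct. -/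
theorem R_cr_inj {V : Type*} {X W : V → ℝ} (hX : Function.Injective X) (hgp : GP X W)
    {u v w : V} (hv : u ≠ v) (hw : u ≠ w) (h : R_cr X W u v = R_cr X W u w) : v = w := by
  by_contra hvw
  apply hgp u v w hv hw hvw
  have h1 := R_diff (W := W) hX hv (R_cr X W u v)
  have h2 := R_diff (W := W) hX hw (R_cr X W u v)
  rw [sub_self, mul_zero] at h1
  rw [h, sub_self, mul_zero, ← h] at h2
  have e1 : W v - W u = - R_cr X W u v * (X v - X u) := by linarith
  have e2 : W w - W u = - R_cr X W u v * (X w - X u) := by linarith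
  rw [e1, e2]
  ring

open Classical in
/-- One step: ranks change by at most one. -/
theorem R_rk_step {V : Type*} [Fintype V] {X W : V → ℝ} (hX : Function.Injective X)
    (hgp : GP X W) {s s' c : ℝ}
    (h : ∀ u v : V, u ≠ v → R_cr X W u v ≠ c →
      (R_cr X W u v < s ∧ R_cr X W u v < s') ∨ (s < R_cr X W u v ∧ s' < R_cr X W u v)) (u : V) :
    rk (fun v => W v + s * X v) u ≤ rk (fun v => W v + s' * X v) u + 1 ∧
      rk (fun v => -(W v + s * X v)) u ≤ rk (fun v => -(W v + s' * X v)) u + 1 := by
  have hcard : (Finset.univ.filter (fun v : V => u ≠ v ∧ R_cr X W u v = c)).card ≤ 1 := by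
    rw [Finset.card_le_one]
    intro a ha b hb
    rw [Finset.mem_filter] at ha hb
    exact R_cr_inj hX hgp ha.2.1 hb.2.1 (ha.2.2.trans hb.2.2.symm)
  constructor
  · unfold rk cnt
    refine le_trans (Finset.card_le_card (t := (Finset.univ.filter
      (fun v : V => W v + s' * X v < W u + s' * X u)) ∪
      (Finset.univ.filter (fun v : V => u ≠ v ∧ R_cr X W u v = c))) ?_) ?_
    · intro v hv
      rw [Finset.mem_filter] at hv
      rw [Finset.mem_union, Finset.mem_filter, Finset.mem_filter]
      have huv : u ≠ v := by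
        rintro rfl
        exact lt_irrefl _ hv.2
      by_cases hc : R_cr X W u v = c
      · right; exact ⟨Finset.mem_univ _, huv, hc⟩
      · left
        refine ⟨Finset.mem_univ _, ?_⟩
        have h1 := h v u huv.symm (by rw [← R_cr_symm]; exact hc)
        exact (R_lt_iff hX huv.symm h1).1 hv.2
    · refine le_trans (Finset.card_union_le _ _) ?_
      exact Nat.add_le_add_left hcard _
  · unfold rk cnt
    refine le_trans (Finset.card_le_card (t := (Finset.univ.filter
      (fun v : V => -(W v + s' * X v) < -(W u + s' * X u))) ∪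
      (Finset.univ.filter (fun v : V => u ≠ v ∧ R_cr X W u v = c))) ?_) ?_
    · intro v hv
      rw [Finset.mem_filter] at hv
      rw [Finset.mem_union, Finset.mem_filter, Finset.mem_filter]
      have huv : u ≠ v := by
        rintro rfl
        exact lt_irrefl _ hv.2
      by_cases hc : R_cr X W u v = c
      · right; exact ⟨Finset.mem_univ _, huv, hc⟩
      · left
        refine ⟨Finset.mem_univ _, ?_⟩
        have h1 := h u v huv hc
        exact neg_lt_neg ((R_lt_iff hX huv h1).1 (neg_lt_neg_iff.1 hv.2))
    · refine le_trans (Finset.card_union_le _ _) ?_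
      exact Nat.add_le_add_left hcard _

open Classical in
/-- The first class. -/
noncomputable def R_P1 {V : Type*} [Fintype V] (X W : V → ℝ) (t : ℕ) (s : ℝ) : Finset V :=
  Finset.univ.filter (fun v => (rk X v < t ∧ rk (fun u => W u + s * X u) v < t) ∨
    (rk (fun u => - X u) v < t ∧ rk (fun u => - (W u + s * X u)) v < t))

open Classical in
/-- The second class. -/
noncomputable def R_P2 {V : Type*} [Fintype V] (X W : V → ℝ) (t : ℕ) (s : ℝ) : Finset V :=
  Finset.univ.filter (fun v => (rk X v < t ∧ rk (fun u => - (W u + s * X u)) v < t) ∨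
    (rk (fun u => - X u) v < t ∧ rk (fun u => W u + s * X u) v < t))

theorem R_injY {V : Type*} {X W : V → ℝ} (hX : Function.Injective X) {s : ℝ}
    (hs : ∀ u v : V, u ≠ v → s ≠ R_cr X W u v) :
    Function.Injective (fun v => W v + s * X v) := by
  intro u v huv
  by_contra hne
  have h1 := R_diff (W := W) hX hne s
  have h2 : (X v - X u) * (s - R_cr X W u v) = 0 := by
    rw [← h1]
    simp only at huv
    linarith
  rcases mul_eq_zero.1 h2 with h3 | h3
  · exact hne (hX (by linarith))
  · exact hs u v hne (by linarith)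

open Classical in
theorem R_P_step {V : Type*} [Fintype V] {X W : V → ℝ} (hX : Function.Injective X)
    (hgp : GP X W) {s s' c : ℝ} (t : ℕ) (hs : ∀ u v : V, u ≠ v → s ≠ R_cr X W u v)
    (h : ∀ u v : V, u ≠ v → R_cr X W u v ≠ c →
      (R_cr X W u v < s ∧ R_cr X W u v < s') ∨ (s < R_cr X W u v ∧ s' < R_cr X W u v)) :
    (R_P1 X W t s).card ≤ (R_P1 X W t s').card + 2 ∧
      (R_P2 X W t s).card ≤ (R_P2 X W t s').card + 2 := by
  have h' : ∀ u v : V, u ≠ v → R_cr X W u v ≠ c →
      (R_cr X W u v < s' ∧ R_cr X W u v < s) ∨ (s' < R_cr X W u v ∧ s < R_cr X W u v) := by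
    intro u v h1 h2
    rcases h u v h1 h2 with h3 | h3
    · exact Or.inl ⟨h3.2, h3.1⟩
    · exact Or.inr ⟨h3.2, h3.1⟩
  have hY := R_injY (W := W) hX hs
  have hY' : Function.Injective (fun v => -(W v + s * X v)) := fun a b hab =>
    hY (neg_injective hab)
  set E1 : Finset V := Finset.univ.filter (fun v => rk (fun u => W u + s * X u) v + 1 = t)
    with hE1
  set E2 : Finset V := Finset.univ.filter (fun v => rk (fun u => -(W u + s * X u)) v + 1 = t)
    with hE2
  have c1 : E1.card ≤ 1 := by
    rw [Finset.card_le_one]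
    intro a ha b hb
    rw [hE1, Finset.mem_filter] at ha hb
    exact rk_inj hY (by omega)
  have c2 : E2.card ≤ 1 := by
    rw [Finset.card_le_one]
    intro a ha b hb
    rw [hE2, Finset.mem_filter] at ha hb
    exact rk_inj hY' (by omega)
  have k1 : ∀ v, rk (fun u => W u + s * X u) v < t →
      v ∉ E1 → rk (fun u => W u + s' * X u) v < t := by
    intro v hv hE
    have h1 := (R_rk_step hX hgp h' v).1
    have h2 : rk (fun u => W u + s * X u) v + 1 ≠ t := by
      intro h3
      exact hE (by rw [hE1, Finset.mem_filter]; exact ⟨Finset.mem_univ _, h3⟩)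
    omega
  have k2 : ∀ v, rk (fun u => -(W u + s * X u)) v < t →
      v ∉ E2 → rk (fun u => -(W u + s' * X u)) v < t := by
    intro v hv hE
    have h1 := (R_rk_step hX hgp h' v).2
    have h2 : rk (fun u => -(W u + s * X u)) v + 1 ≠ t := by
      intro h3
      exact hE (by rw [hE2, Finset.mem_filter]; exact ⟨Finset.mem_univ _, h3⟩)
    omega
  constructor
  · have hsub : R_P1 X W t s ⊆ R_P1 X W t s' ∪ (E1 ∪ E2) := by
      intro v hv
      rw [R_P1, Finset.mem_filter] at hv
      rw [Finset.mem_union, Finset.mem_union]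
      by_cases he1 : v ∈ E1
      · exact Or.inr (Or.inl he1)
      by_cases he2 : v ∈ E2
      · exact Or.inr (Or.inr he2)
      left
      rw [R_P1, Finset.mem_filter]
      refine ⟨Finset.mem_univ _, ?_⟩
      rcases hv.2 with h1 | h1
      · exact Or.inl ⟨h1.1, k1 v h1.2 he1⟩
      · exact Or.inr ⟨h1.1, k2 v h1.2 he2⟩
    have := Finset.card_le_card hsub
    have q1 := Finset.card_union_le (R_P1 X W t s') (E1 ∪ E2)
    have q2 := Finset.card_union_le E1 E2
    omega
  · have hsub : R_P2 X W t s ⊆ R_P2 X W t s' ∪ (E1 ∪ E2) := by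
      intro v hv
      rw [R_P2, Finset.mem_filter] at hv
      rw [Finset.mem_union, Finset.mem_union]
      by_cases he1 : v ∈ E1
      · exact Or.inr (Or.inl he1)
      by_cases he2 : v ∈ E2
      · exact Or.inr (Or.inr he2)
      left
      rw [R_P2, Finset.mem_filter]
      refine ⟨Finset.mem_univ _, ?_⟩
      rcases hv.2 with h1 | h1
      · exact Or.inl ⟨h1.1, k2 v h1.2 he2⟩
      · exact Or.inr ⟨h1.1, k1 v h1.2 he1⟩
    have := Finset.card_le_card hsub
    have q1 := Finset.card_union_le (R_P2 X W t s') (E1 ∪ E2)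
    have q2 := Finset.card_union_le E1 E2
    omega

/-- Far up, the order is that of `X`. -/
theorem R_rk_top {V : Type*} [Fintype V] {X W : V → ℝ} (hX : Function.Injective X) {s : ℝ}
    (hs : ∀ u v : V, u ≠ v → R_cr X W u v < s) (v : V) :
    rk (fun u => W u + s * X u) v = rk X v ∧
      rk (fun u => -(W u + s * X u)) v = rk (fun u => - X u) v := by
  classical
  have key : ∀ u w : V, (W u + s * X u < W w + s * X w) ↔ X u < X w := by
    intro u w
    by_cases huw : u = w
    · subst huw; simp
    · have e1 := R_diff (W := W) hX huw s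
      have e2 : 0 < s - R_cr X W u w := by linarith [hs u w huw]
      constructor
      · intro h
        have h1 : 0 < (X w - X u) * (s - R_cr X W u w) := by rw [← e1]; linarith
        have h2 := (mul_pos_iff_of_pos_right e2).1 h1
        linarith
      · intro h
        have h1 := mul_pos (show 0 < X w - X u by linarith) e2
        rw [← e1] at h1
        linarith
  constructor
  · unfold rk cnt
    congr 1
    ext u
    simp only [Finset.mem_filter, Finset.mem_univ, true_and]
    exact key u v
  · unfold rk cnt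
    congr 1
    ext u
    simp only [Finset.mem_filter, Finset.mem_univ, true_and, neg_lt_neg_iff]
    exact key v u

/-- Far down, the order is that of `-X`. -/
theorem R_rk_bot {V : Type*} [Fintype V] {X W : V → ℝ} (hX : Function.Injective X) {s : ℝ}
    (hs : ∀ u v : V, u ≠ v → s < R_cr X W u v) (v : V) :
    rk (fun u => W u + s * X u) v = rk (fun u => - X u) v ∧
      rk (fun u => -(W u + s * X u)) v = rk X v := by
  classical
  have key : ∀ u w : V, (W u + s * X u < W w + s * X w) ↔ X w < X u := by
    intro u w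
    by_cases huw : u = w
    · subst huw; simp
    · have e1 := R_diff (W := W) hX huw s
      have e2 : 0 < R_cr X W u w - s := by linarith [hs u w huw]
      constructor
      · intro h
        have h1 : 0 < (X u - X w) * (R_cr X W u w - s) := by
          have : (X u - X w) * (R_cr X W u w - s) = (X w - X u) * (s - R_cr X W u w) := by ring
          rw [this, ← e1]; linarith
        have h2 := (mul_pos_iff_of_pos_right e2).1 h1
        linarith
      · intro h
        have h1 := mul_pos (show 0 < X u - X w by linarith) e2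
        have : (X u - X w) * (R_cr X W u w - s) = (X w - X u) * (s - R_cr X W u w) := by ring
        rw [this, ← e1] at h1
        linarith
  constructor
  · unfold rk cnt
    congr 1
    ext u
    simp only [Finset.mem_filter, Finset.mem_univ, true_and, neg_lt_neg_iff]
    exact key u v
  · unfold rk cnt
    congr 1
    ext u
    simp only [Finset.mem_filter, Finset.mem_univ, true_and, neg_lt_neg_iff]
    exact key v u

open Classical in
theorem R_main {V : Type*} [Fintype V] {X W : V → ℝ} (hX : Function.Injective X)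
    (hgp : GP X W) (t : ℕ) (T : Finset ℝ) (hT : ∀ τ, τ ∈ T ↔ ∃ u v : V, u ≠ v ∧ R_cr X W u v = τ) :
    ∀ (k : ℕ) (s : ℝ), (T.filter (fun τ => τ < s)).card = k →
      (∀ u v : V, u ≠ v → s ≠ R_cr X W u v) →
      (R_P2 X W t s).card ≤ (R_P1 X W t s).card →
      ∃ s₁ : ℝ, (∀ u v : V, u ≠ v → s₁ ≠ R_cr X W u v) ∧
        |((R_P1 X W t s₁).card : ℤ) - (R_P2 X W t s₁).card| ≤ 4 := by
  intro k
  induction k using Nat.strong_induction_on with
  | _ k ih =>
    intro s hk hs h0
    by_cases hne : (T.filter (fun τ => τ < s)).Nonempty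
    · set c := (T.filter (fun τ => τ < s)).max' hne with hc
      have hcm : c ∈ T.filter (fun τ => τ < s) := Finset.max'_mem _ _
      rw [Finset.mem_filter] at hcm
      obtain ⟨s', hs'c, hs'⟩ := R_gap T c
      have hle : ∀ τ ∈ T, τ < s → τ ≤ c := by
        intro τ hτ hlt
        exact Finset.le_max' _ _ (Finset.mem_filter.2 ⟨hτ, hlt⟩)
      have hsn : ∀ u v : V, u ≠ v → s' ≠ R_cr X W u v := by
        intro u v huv he
        have hm : s' ∈ T := (hT s').2 ⟨u, v, huv, he.symm⟩
        exact lt_irrefl _ (hs' s' hm hs'c)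
      have hstep : ∀ u v : V, u ≠ v → R_cr X W u v ≠ c →
          (R_cr X W u v < s ∧ R_cr X W u v < s') ∨
            (s < R_cr X W u v ∧ s' < R_cr X W u v) := by
        intro u v huv hcc
        have hm : R_cr X W u v ∈ T := (hT _).2 ⟨u, v, huv, rfl⟩
        rcases lt_trichotomy (R_cr X W u v) s with h1 | h1 | h1
        · left
          have h2 := hle _ hm h1
          exact ⟨h1, hs' _ hm (lt_of_le_of_ne h2 hcc)⟩
        · exact absurd h1.symm (hs u v huv)
        · right
          exact ⟨h1, by linarith [hcm.2]⟩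
      have hstep' : ∀ u v : V, u ≠ v → R_cr X W u v ≠ c →
          (R_cr X W u v < s' ∧ R_cr X W u v < s) ∨
            (s' < R_cr X W u v ∧ s < R_cr X W u v) := by
        intro u v h1 h2
        rcases hstep u v h1 h2 with h3 | h3
        · exact Or.inl ⟨h3.2, h3.1⟩
        · exact Or.inr ⟨h3.2, h3.1⟩
      by_cases h0' : (R_P2 X W t s').card ≤ (R_P1 X W t s').card
      · refine ih (T.filter (fun τ => τ < s')).card ?_ s' rfl hsn h0'
        rw [← hk]
        apply Finset.card_lt_card
        rw [Finset.ssubset_iff_of_subset]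
        · refine ⟨c, Finset.mem_filter.2 hcm, ?_⟩
          rw [Finset.mem_filter]
          rintro ⟨_, h2⟩
          exact lt_irrefl _ (h2.trans hs'c)
        · intro τ hτ
          rw [Finset.mem_filter] at hτ ⊢
          exact ⟨hτ.1, by linarith [hcm.2]⟩
      · refine ⟨s, hs, ?_⟩
        obtain ⟨q1, q2⟩ := R_P_step hX hgp t hs hstep
        obtain ⟨q3, q4⟩ := R_P_step hX hgp t hsn hstep'
        rw [abs_le]
        constructor <;> omega
    · refine ⟨s, hs, ?_⟩
      have hbot : ∀ u v : V, u ≠ v → s < R_cr X W u v := by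
        intro u v huv
        have hm : R_cr X W u v ∈ T := (hT _).2 ⟨u, v, huv, rfl⟩
        rcases lt_trichotomy (R_cr X W u v) s with h1 | h1 | h1
        · exact absurd ⟨_, Finset.mem_filter.2 ⟨hm, h1⟩⟩ hne
        · exact absurd h1.symm (hs u v huv)
        · exact h1
      have hsub : R_P1 X W t s ⊆ R_P2 X W t s := by
        intro v hv
        rw [R_P1, Finset.mem_filter] at hv
        rw [R_P2, Finset.mem_filter]
        refine ⟨Finset.mem_univ _, ?_⟩
        obtain ⟨e1, e2⟩ := R_rk_bot hX hbot v
        rw [e1, e2] at hv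
        rw [e1, e2]
        rcases hv.2 with h1 | h1
        · exact Or.inl ⟨h1.1, h1.1⟩
        · exact Or.inl ⟨h1.2, h1.2⟩
      have h1 := Finset.card_le_card hsub
      rw [abs_le]
      constructor <;> omega

/-- **Choice of the second direction.**  For `Y = W + s X` and `s` going from `+∞` to `-∞` the
order of the vertices changes from that of `X` to that of `-X`; at each critical value of `s`
only disjoint pairs of vertices of consecutive ranks are exchanged (no three vertices are
collinear), so that `|P₁| - |P₂|` changes by at most `4`. -/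
theorem exists_shear {V : Type*} [Fintype V] {X W : V → ℝ} (hX : Function.Injective X)
    (hgp : GP X W) {t : ℕ} (ht : 2 * t ≤ Fintype.card V) :
    ∃ s : ℝ, Function.Injective (fun v => W v + s * X v) ∧
      ∀ P₁ P₂ : Finset V,
        (∀ v, v ∈ P₁ ↔ (rk X v < t ∧ rk (fun u => W u + s * X u) v < t) ∨
          (rk (fun u => - X u) v < t ∧ rk (fun u => - (W u + s * X u)) v < t)) →
        (∀ v, v ∈ P₂ ↔ (rk X v < t ∧ rk (fun u => - (W u + s * X u)) v < t) ∨
          (rk (fun u => - X u) v < t ∧ rk (fun u => W u + s * X u) v < t)) →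
        |(P₁.card : ℤ) - P₂.card| ≤ 4 := by
  classical
  set T : Finset ℝ := (Finset.univ.filter (fun p : V × V => p.1 ≠ p.2)).image
    (fun p => R_cr X W p.1 p.2) with hTdef
  have hT : ∀ τ, τ ∈ T ↔ ∃ u v : V, u ≠ v ∧ R_cr X W u v = τ := by
    intro τ
    rw [hTdef, Finset.mem_image]
    constructor
    · rintro ⟨p, hp, rfl⟩
      rw [Finset.mem_filter] at hp
      exact ⟨p.1, p.2, hp.2, rfl⟩
    · rintro ⟨u, v, huv, rfl⟩
      exact ⟨(u, v), Finset.mem_filter.2 ⟨Finset.mem_univ _, huv⟩, rfl⟩
  obtain ⟨M, hM⟩ := T.bddAbove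
  have htop : ∀ u v : V, u ≠ v → R_cr X W u v < M + 1 := by
    intro u v huv
    have hm : R_cr X W u v ∈ T := (hT _).2 ⟨u, v, huv, rfl⟩
    have := hM hm
    linarith
  have hn : ∀ u v : V, u ≠ v → M + 1 ≠ R_cr X W u v := fun u v huv => (htop u v huv).ne'
  have h0 : (R_P2 X W t (M + 1)).card ≤ (R_P1 X W t (M + 1)).card := by
    apply Finset.card_le_card
    intro v hv
    rw [R_P2, Finset.mem_filter] at hv
    rw [R_P1, Finset.mem_filter]
    refine ⟨Finset.mem_univ _, ?_⟩
    obtain ⟨e1, e2⟩ := R_rk_top hX htop v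
    rw [e1, e2] at hv
    rw [e1, e2]
    rcases hv.2 with h1 | h1
    · exact Or.inl ⟨h1.1, h1.1⟩
    · exact Or.inl ⟨h1.2, h1.2⟩
  obtain ⟨s, hs, habs⟩ := R_main hX hgp t T hT _ (M + 1) rfl hn h0
  refine ⟨s, R_injY hX hs, ?_⟩
  intro P₁ P₂ h1 h2
  have e1 : P₁ = R_P1 X W t s := by
    ext v
    rw [R_P1, Finset.mem_filter, h1 v]
    simp
  have e2 : P₂ = R_P2 X W t s := by
    ext v
    rw [R_P2, Finset.mem_filter, h2 v]
    simp
  rw [e1, e2]
  exact habs

end Helper24.GT
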